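import Mathlib
set_option autoImplicit false

/-!
# The frog functional

`V` sites, `M` moves, `step x a` the site reached from `x` by the move `a`, `r` the reward of a visit of a site. Every
frog makes `K` uniform independent moves. `B` is a finite set of sites; the sleeping frogs sit at the sites of `B` which are
in `Z`. `F O Z` is the expected total reward of all frogs which are ever awake if the frogs at the sites of the list `O` are
awake at the beginning: a frog sleeping at `z` wakes up as soon as an awake frog moves to `z`. It is written as an average over
all the (finitely many) families of moves.
-/

namespace Pool.Agent.U140.FM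

open Finset
open scoped BigOperators

section general

variable {V M : Type} [DecidableEq V] [Fintype M] [Inhabited M]

/-- the sites visited by a frog which starts at `x` and makes the moves of the list (start not included) -/
def path (step : V → M → V) : V → List M → List V
  | _, [] => []
  | x, a :: w => step x a :: path step (step x a) w

variable (step : V → M → V) (r : V → ℝ) (K : ℕ) (B : Finset V)

/-- the set of the sites visited by the frog `x` with the moves `u` -/
def vis {K : ℕ} (x : V) (u : Fin K → M) : Finset V := (path step x (List.ofFn u)).toFinset

/-- the reward collected by the frog `x` with the moves `u` -/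
noncomputable def gain {K : ℕ} (x : V) (u : Fin K → M) : ℝ := ((path step x (List.ofFn u)).map r).sum

/-- `a` awake wakes `b` -/
def edge {K : ℕ} (Z : Finset V) (w : V → Fin K → M) (a b : V) : Prop := b ∈ Z ∧ b ∈ vis step a (w a)

open Classical in
/-- the sleeping frogs which wake up if the sites of `X` are visited -/
noncomputable def reach {K : ℕ} (Z : Finset V) (w : V → Fin K → M) (X : Finset V) : Finset V :=
  Z.filter fun z => ∃ x ∈ X, x ∈ Z ∧ Relation.ReflTransGen (edge step Z w) x z

/-- their total reward -/
noncomputable def base {K : ℕ} (Z : Finset V) (w : V → Fin K → M) (X : Finset V) : ℝ :=
  ∑ z ∈ reach step Z w X, gain step r z (w z)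

/-- average over a finite type -/
noncomputable def avg {α : Type} [Fintype α] (f : α → ℝ) : ℝ := (∑ x, f x) / Fintype.card α

/-- the expected reward, given the moves `w` of the sleeping frogs, if the sites of `X` have been visited and there are awake
frogs at the sites of the list -/
noncomputable def Phi {K : ℕ} (Z : Finset V) (w : V → Fin K → M) : Finset V → List V → ℝ
  | X, [] => base step r Z w X
  | X, x :: O => avg fun u : Fin K → M => gain step r x u + Phi Z w (X ∪ vis step x u) O

open Classical in
/-- moves for all sites from moves for the sites of `B` -/
noncomputable def ext {K : ℕ} (w : B → Fin K → M) (v : V) : Fin K → M := if h : v ∈ B then w ⟨v, h⟩ else fun _ => default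

open Classical in
/-- the expected total reward -/
noncomputable def F (O : List V) (Z : Set V) : ℝ :=
  avg fun w : B → Fin K → M => Phi step r (B.filter (· ∈ Z)) (ext B w) ∅ O

end general

/-! ## The tree -/

/-- vertices of the 4-ary tree; the children of `v` are `a :: v`, the parent of `v ≠ []` is `v.tail` -/
abbrev Vt := List (Fin 4)
abbrev Mv := Fin 4 × Fin 5

/-- the simple random walk on the tree, stopped when it leaves the ball of radius `n` -/
def stepT (n : ℕ) (v : Vt) (x : Mv) : Vt :=
  if n < v.length then v else if v = [] then [x.1] else if x.2 = 0 then v.tail else x.1 :: v

/-- the ball of radius `n` -/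
noncomputable def ball (n : ℕ) : Finset Vt := (List.finite_length_le (Fin 4) n).toFinset

/-- visits of the root are counted -/
noncomputable def rt (v : Vt) : ℝ := if v = [] then 1 else 0

/-- the frog functional of the tree -/
noncomputable def FT (n K : ℕ) (O : List Vt) (Z : Set Vt) : ℝ := F (stepT n) rt K (ball n) O Z

end Pool.Agent.U140.FM
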