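import Pool.Agent.U140.FM.Def
set_option autoImplicit false
/-! The types of the vertices and the interface of the certificate.

Types of vertices: `0` = unvisited (nothing is known, everything below may sleep), `1..6` = visited, with children of the types
`rep t` (ordered). `conf v t` is the set of the vertices of the subtree of `v` which sleep if `v` has type `t`. `wt t j u` (a law on
`j < 4`, `u = 1..6`, from the certificate, rational numbers) bounds: a frog which arrives at a vertex `v` of type `t` sends back `j` frogs to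
the parent and leaves `v` with type `u`. -/
namespace Pool.Agent.U140.FM
open Finset

/-- the types of the children: A=UUUU B=UUAA C=UUUB D=UUCB E=UBCD F=BDCE -/
def rep : Fin 7 → Fin 4 → Fin 7 :=
  ![![0, 0, 0, 0], ![0, 0, 0, 0], ![0, 0, 1, 1], ![0, 0, 0, 2], ![0, 0, 3, 2], ![0, 2, 3, 4], ![2, 4, 3, 5]]

/-- does the vertex at the end of the path (first step first) sleep? -/
def sl : Fin 7 → List (Fin 4) → Prop
  | t, [] => t = 0
  | t, a :: p => t = 0 ∨ sl (rep t a) p

/-- the sleeping vertices in the subtree of a vertex `v` of type `t` -/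
def conf (v : Vt) (t : Fin 7) : Set Vt := {x | ∃ p : List (Fin 4), x = p.reverse ++ v ∧ sl t p}

/-- the subtree of `v` -/
def below (v : Vt) : Set Vt := {x | v <:+ x}

/-- `dm u t`: `u ≤ t` (a vertex of type `u` has at most as many sleeping vertices below it), order used for ordered children -/
def dm (u t : Fin 7) : Prop := ∀ v : Vt, conf v u ⊆ conf v t

/-- the statement proved by the certificate (job L, helper140) -/
def Cert (wt : Fin 7 → ℕ → Fin 7 → ℝ) : Prop :=
  ∀ (H : ℕ → ℕ → (Fin 4 → Fin 7) → ℝ) (G : ℕ → Fin 7 → ℝ) (C : ℝ),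
    (∀ m e c, H (m + 1) e c ≤ (1 / 5) * H m (e + 1) c +
      (1 / 5) * ∑ i : Fin 4, ∑ u : Fin 7, ∑ j ∈ range 4, wt (c i) j u * H (m + j) e (Function.update c i u)) →
    (∀ e c u, u ≠ 0 → (∀ i, dm (c i) (rep u i)) → H 0 e c ≤ G e u) →
    (∀ m e c (σ : Equiv.Perm (Fin 4)), H m e (c ∘ σ) = H m e c) →
    (∀ m e c, H m e c ≤ H (m + 1) e c) →
    (∀ m e c, H (m + 2) e c + H m e c ≤ 2 * H (m + 1) e c) →
    (∀ m e c i u u', dm u u' → H m e (Function.update c i u) ≤ H m e (Function.update c i u')) →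
    (∀ e u, G e u ≤ G (e + 1) u) →
    (∀ e u, G (e + 2) u + G e u ≤ 2 * G (e + 1) u) →
    (∀ e u u', u ≠ 0 → u' ≠ 0 → dm u u' → G e u ≤ G e u') →
    (∀ m e c u, H m e c ≤ G e u + C * (m + 1)) →
    H 2 0 (fun _ => 0) ≤ ∑ j ∈ range 4, ∑ u : Fin 7, wt 0 j u * G j u ∧
    ∀ t : Fin 7, t ≠ 0 → H 1 0 (rep t) ≤ ∑ j ∈ range 4, ∑ u : Fin 7, wt t j u * G j u

/-- the facts about the weights (job L): a law with mean `≤ 49/50` -/
structure Wts (wt : Fin 7 → ℕ → Fin 7 → ℝ) : Prop where
  nonneg : ∀ t j u, 0 ≤ wt t j u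
  zero : ∀ t j, wt t j 0 = 0
  sum : ∀ t, ∑ j ∈ range 4, ∑ u : Fin 7, wt t j u = 1
  mean : ∀ t, ∑ j ∈ range 4, ∑ u : Fin 7, (j : ℝ) * wt t j u ≤ 49 / 50
  cert : Cert wt

open Classical in
/-- the arrival of a frog at `v` -/
noncomputable def arr (n K : ℕ) (v : Vt) (O : List Vt) (Z : Set Vt) : ℝ :=
  if v ∈ ball n ∧ v ∈ Z then FT n K (v :: v :: O) (Z \ {v}) else FT n K (v :: O) Z

end Pool.Agent.U140.FM
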