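import Pool.Agent.U140.FM.Def
set_option autoImplicit false
namespace Pool.Agent.U140.FM
open Finset

open Classical in
/-- the reward of the frogs which are woken in the ball of radius `n` within `K` moves of each frog, for given moves `w v k` -/
noncomputable def tot (n K : ℕ) (w : Vt → ℕ → Mv) : ℝ :=
  gain (stepT n) rt [] (fun k : Fin K => w [] k) +
    base (stepT n) rt ((ball n).filter (· ≠ [])) (fun v (k : Fin K) => w v k) (vis (stepT n) [] (fun k : Fin K => w [] k))

end Pool.Agent.U140.FM
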