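import Pool.Agent.U140.FM.Def
set_option autoImplicit false
/-! PACKAGE A (same theorem names in the namespace Pool.Agent.U140.FM, helper lemmas in the namespace Pool.Agent.U140.FM.PkgA; import Def only) (basic properties of `F`): copy to FA.lean (own folder), replace the sorries.
Hints: everything for fixed `w` first (`Phi`), by induction on the list, then average. `reach Z w (X ∪ Y) = reach Z w X ∪ reach Z w Y`,
so `base` is a coverage function: base (X ∪ A ∪ B) + base X ≤ base (X ∪ A) + base (X ∪ B), monotone in X and (for nonneg r) in Z. -/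
namespace Pool.Agent.U140.FM
open Finset
variable {V M : Type} [DecidableEq V] [Fintype M] [Inhabited M]
variable (step : V → M → V) (r : V → ℝ) (K : ℕ) (B : Finset V)

theorem F_perm {O O' : List V} (h : O.Perm O') (Z : Set V) : F step r K B O Z = F step r K B O' Z := sorry

theorem F_nil (Z : Set V) : F step r K B [] Z = 0 := sorry

theorem F_nonneg (hr : ∀ v, 0 ≤ r v) (O : List V) (Z : Set V) : 0 ≤ F step r K B O Z := sorry

/-- bounded increments -/
theorem F_cons_le (hr : ∀ v, 0 ≤ r v) (hr1 : ∀ v, r v ≤ 1) (x : V) (O : List V) (Z : Set V) :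
    F step r K B (x :: O) Z ≤ F step r K B O Z + ((B.card : ℝ) + 1) * K := sorry

/-- bounded dependence on `Z` -/
theorem F_le_set (hr : ∀ v, 0 ≤ r v) (hr1 : ∀ v, r v ≤ 1) (O : List V) (Z Z' : Set V) :
    F step r K B O Z ≤ F step r K B O Z' + (B.card : ℝ) * K := sorry

theorem F_mono_cons (hr : ∀ v, 0 ≤ r v) (x : V) (O : List V) (Z : Set V) :
    F step r K B O Z ≤ F step r K B (x :: O) Z := sorry

theorem F_mono_set (hr : ∀ v, 0 ≤ r v) (O : List V) {Z Z' : Set V} (h : ∀ v ∈ B, v ∈ Z → v ∈ Z') :
    F step r K B O Z ≤ F step r K B O Z' := sorry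

/-- submodularity -/
theorem F_sub (hr : ∀ v, 0 ≤ r v) (a b : V) (O : List V) (Z : Set V) :
    F step r K B (a :: b :: O) Z + F step r K B O Z ≤ F step r K B (a :: O) Z + F step r K B (b :: O) Z := sorry

end Pool.Agent.U140.FM
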