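import Pool.Agent.U140.FM.Def
set_option autoImplicit false
/-! PACKAGE B (same theorem names in the namespace Pool.Agent.U140.FM, helper lemmas in the namespace Pool.Agent.U140.FM.PkgB; import Def only) (one move of an awake frog): copy to FB.lean (own folder), replace the sorries.
`F_step`: write the walk of `x` as `Fin.cons a u'`, `u' : Fin (K-1) → M` (for `K = 0` the left side is `F O Z`), enlarge `u'` to a walk
of length `K` of the frog at `y = step x a` (path of a prefix is a prefix; monotone in the visited set), and use, for `y ∈ Z'`
(`Z' = B.filter (· ∈ Z)`): reach Z' w (X ∪ {y}) = {y} ∪ reach (Z' \ {y}) w (X ∪ vis y (w y)); the value `w y` is not used by `Phi (Z' \ {y}) w`,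
so it can be averaged separately (resampling lemma: the average over `w : B → (Fin K → M)` of `g (w y) w`, where the second
argument does not depend on `w y`, is the average over `u` and `w` of `g u w`). -/
namespace Pool.Agent.U140.FM
open Finset
variable {V M : Type} [DecidableEq V] [Fintype M] [Inhabited M]
variable (step : V → M → V) (r : V → ℝ) (K : ℕ) (B : Finset V)

open Classical in
theorem F_step (hr : ∀ v, 0 ≤ r v) (x : V) (O : List V) (Z : Set V) :
    F step r K B (x :: O) Z ≤ avg fun a : M => r (step x a) +
      (if step x a ∈ B ∧ step x a ∈ Z then F step r K B (step x a :: step x a :: O) (Z \ {step x a})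
        else F step r K B (step x a :: O) Z) := sorry

/-- a stopped frog does nothing -/
theorem F_dead (x : V) (O : List V) (Z : Set V) (h : ∀ a, step x a = x) (hx : ¬ (x ∈ B ∧ x ∈ Z)) (hr : r x = 0) :
    F step r K B (x :: O) Z = F step r K B O Z := sorry

end Pool.Agent.U140.FM
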