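import Pool.Agent.U140.FM.Def
set_option autoImplicit false
/-! PACKAGE C (same theorem names in the namespace Pool.Agent.U140.FM, helper lemmas in the namespace Pool.Agent.U140.FM.PkgC; import Def only) (symmetry): copy to FC.lean (own folder), replace the sorries.
`F_symm`: an automorphism of the walk (with relabelling `τ x` of the moves at `x`) acts on walks: the walk `u` from `x` is mapped to the
walk `u'` from `φ x` with u'_k = τ (x_k) (u_k), x_k the position of the original frog before the k-th move; this is a bijection of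
`Fin K → M` for each `x`, and `path step (φ x) u' = (path step x u).map φ`.
`swap_symm`: the tree: permuting the subtrees of the children of `v`. -/
namespace Pool.Agent.U140.FM
open Finset
variable {V M : Type} [DecidableEq V] [Fintype M] [Inhabited M]
variable (step : V → M → V) (r : V → ℝ) (K : ℕ) (B : Finset V)

theorem F_symm (φ : Equiv.Perm V) (τ : V → Equiv.Perm M) (hstep : ∀ x a, step (φ x) (τ x a) = φ (step x a))
    (hB : ∀ x, φ x ∈ B ↔ x ∈ B) (hr : ∀ x, r (φ x) = r x) (O : List V) (Z : Set V) :
    F step r K B (O.map φ) (φ '' Z) = F step r K B O Z := sorry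

/-- permute the subtrees of the children of `v`: `l ++ (i :: v)` is mapped to `l ++ (σ i :: v)`, everything else is fixed -/
noncomputable def sw (v : Vt) (σ : Equiv.Perm (Fin 4)) : Equiv.Perm Vt := sorry

theorem sw_child (v : Vt) (σ : Equiv.Perm (Fin 4)) (l : Vt) (i : Fin 4) : sw v σ (l ++ i :: v) = l ++ σ i :: v := sorry

theorem sw_fix (v : Vt) (σ : Equiv.Perm (Fin 4)) (x : Vt) (h : ∀ l i, x ≠ l ++ i :: v) : sw v σ x = x := sorry

theorem FT_sw (n K : ℕ) (v : Vt) (σ : Equiv.Perm (Fin 4)) (O : List Vt) (hO : ∀ x ∈ O, ∀ l i, x ≠ l ++ i :: v) (Z : Set Vt) :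
    FT n K O (sw v σ '' Z) = FT n K O Z := sorry

end Pool.Agent.U140.FM
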