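import Pool.Agent.U140.FM.Def3
set_option autoImplicit false
/-! PACKAGES D1, D2, D3 (from the functional to the model). Same theorem names in the namespace Pool.Agent.U140.FM, helper lemmas in the
namespaces Pool.Agent.U140.FM.PkgD1, PkgD2, PkgD3; import Def3 only (D3 may import StmD for D1 and D2: then name it `model` in your file and use D1, D2 as hypotheses or from StmD; I replace). -/
namespace Pool.Agent.U140.FM
open Finset MeasureTheory ProbabilityTheory

/-- PACKAGE D1. The law of the moves `w v k`, `v ∈ ball n`, `k < K`, is uniform on the finite set `ball n → Fin K → Mv` (independence, every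
value has probability 1/20), `tot n K` depends only on them, so its expectation is an average over this finite set; in
`FT n K [[]] {v | v ≠ []}` the root frog has an extra walk `u`, but the summand does not depend on `w []`, so it may be renamed. -/
theorem expect_tot (n K : ℕ) (Ω : Type) [MeasurableSpace Ω] (P : Measure Ω) [IsProbabilityMeasure P]
    (ξ : List (Fin 4) → ℕ → Ω → Fin 4 × Fin 5) (hm : ∀ v k, Measurable (ξ v k))
    (hi : iIndepFun (fun p : List (Fin 4) × ℕ => ξ p.1 p.2) P)
    (hu : ∀ v k (c : Fin 4 × Fin 5), P (ξ v k ⁻¹' {c}) = 1 / 20) :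
    ∫⁻ ω, ENNReal.ofReal (tot n K fun v k => ξ v k ω) ∂P = ENNReal.ofReal (FT n K [[]] {v | v ≠ []}) := sorry

/-- PACKAGE D2 (deterministic). Every finite set `s` of visits of the root by awake frogs is seen in the ball of radius `n` within `K`
moves for all large `n = K = N`: `awake v` gives a finite chain `[] = v_0, ..., v_j = v`, `v_(i+1)` visited by the walk of `v_i` at some time (the set
of the ends of chains contains `[]` and is closed); let `N` be larger than all the times and the depths of the sites visited up to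
these times. The walk `S v` up to time `k` agrees with the stopped walk `stepT N` if it stays in the ball of radius `N`. Only the pair
`([], 0)` is not counted by `tot`. -/
theorem tot_large (w : Vt → ℕ → Mv) (S : Vt → ℕ → Vt) (h0 : ∀ v, S v 0 = v)
    (h1 : ∀ v k, S v (k + 1) = if S v k = [] then [(w v k).1] else if (w v k).2 = 0 then (S v k).tail else (w v k).1 :: S v k)
    (s : Finset (Vt × ℕ)) (hs : ∀ p ∈ s, (∀ A : Set Vt, [] ∈ A → (∀ v ∈ A, ∀ k, S v k ∈ A) → p.1 ∈ A) ∧ S p.1 p.2 = []) :
    ∃ N₀ : ℕ, ∀ N ≥ N₀, (s.card : ℝ) ≤ tot N N w + 1 := sorry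

/-- PACKAGE D3 (limit, from D1 and D2): if the set is infinite then `tot N N w → ∞` by D2; Fatou (`lintegral_liminf_le`) and D1 give
that `liminf tot N N` has a finite integral, so it is finite a.s. -/
theorem model (C : ℝ) (hC : ∀ n K : ℕ, FT n K [[]] {v | v ≠ []} ≤ C) :
    ∀ (Ω : Type) [MeasurableSpace Ω] (P : Measure Ω) [IsProbabilityMeasure P]
      (ξ : List (Fin 4) → ℕ → Ω → Fin 4 × Fin 5),
      (∀ v k, Measurable (ξ v k)) →
      iIndepFun (fun p : List (Fin 4) × ℕ => ξ p.1 p.2) P →
      (∀ v k (c : Fin 4 × Fin 5), P (ξ v k ⁻¹' {c}) = 1 / 20) →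
      ∀ (S : List (Fin 4) → ℕ → Ω → List (Fin 4)),
      (∀ v ω, S v 0 ω = v) →
      (∀ v k ω, S v (k + 1) ω =
        if S v k ω = [] then [(ξ v k ω).1]
        else if (ξ v k ω).2 = 0 then (S v k ω).tail
        else (ξ v k ω).1 :: S v k ω) →
      ∀ᵐ ω ∂P, Set.Finite
        {p : List (Fin 4) × ℕ |
          (∀ A : Set (List (Fin 4)), [] ∈ A →
              (∀ v ∈ A, ∀ k, S v k ω ∈ A) → p.1 ∈ A) ∧
          S p.1 p.2 ω = []} := sorry

end Pool.Agent.U140.FM
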