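import Pool.Agent.U140.FM.StmT
set_option autoImplicit false
/-! PACKAGE R (the root). Prove `root_bound` from `arrive`, F_step, F_sub, F_nil, F_mono_cons (StmA, StmB, StmT) in your own file (same
name, namespace Pool.Agent.U140.FM, helper lemmas in Pool.Agent.U140.FM.PkgR; import StmT, I replace the Stm files at the assembly). -/
namespace Pool.Agent.U140.FM
open Finset

/-- the bound: at the root `R m c = FT n K (replicate m []) (⋃ i, conf [i] (c i))` satisfies
`R (m+1) c ≤ (1/4) ∑ i, ∑ j u, wt (c i) j u * (R (m + j) (update c i u) + j)` and `R j c ≤ j * R 1 c'`-type bounds (F_sub, F_nil), so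
`ρ = max_c R 1 c ≤ (49/50) (ρ + 1)`. -/
theorem root_bound (wt : Fin 7 → ℕ → Fin 7 → ℝ) (W : Wts wt) (n K : ℕ) : FT n K [[]] {v | v ≠ []} ≤ 50 := sorry

end Pool.Agent.U140.FM
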