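import Pool.Agent.U140.FM.Def2
import Pool.Agent.U140.FM.StmA
import Pool.Agent.U140.FM.StmB
import Pool.Agent.U140.FM.StmC
set_option autoImplicit false
/-! PACKAGE T (tree induction). Prove `arrive` in your own file (same name, namespace Pool.Agent.U140.FM, helper
lemmas in the namespace Pool.Agent.U140.FM.PkgT); import Def2, StmA, StmB, StmC (I replace the Stm files by the proofs at the assembly). -/
namespace Pool.Agent.U140.FM
open Finset

/-- the main claim, by induction on `n + 1 - v.length` -/
theorem arrive (wt : Fin 7 → ℕ → Fin 7 → ℝ) (W : Wts wt) (n K : ℕ) (v : Vt) (hv : v ≠ []) (hn : v.length ≤ n + 1)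
    (t : Fin 7) (O : List Vt) (hO : ∀ x ∈ O, x ∉ below v) (Z : Set Vt) (hp : v.tail ∉ Z) (hZ : Z ∩ below v = conf v t) :
    arr n K v O Z ≤ ∑ j ∈ range 4, ∑ u : Fin 7, wt t j u *
      (FT n K (List.replicate j v.tail ++ O) (Z \ below v ∪ conf v u) + j * rt v.tail) := sorry

end Pool.Agent.U140.FM
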